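import Pool.Agent.Helper98.EQ.Defs

/-!
# Project EQ (MP_5b9a11_al): statements of the packets, with proofs

THEOREM.  `p` odd, `D` any finite `p`-group: some multiplicity `m(Q_δ, P_γ)` of the pointed fusion system of a
block with a defect group isomorphic to `D` is at least `|D| - 1`.  Paper proof: MP_5b9a11_al_helper98.md in
the store.  Definitions: `Pool/Agent/Helper98/EQ/Defs.lean` and those of project EP
(`Pool/Agent/Helper47/EP/Defs.lean`).

The results of project EP are available as theorems (all imported here): `pHB : S_HB`, `pRHO`, `pLFT`, `pCHR`,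
`pSIM : S_SIM` (in `Pool/Agent/Helper47/EP/Final.lean`), `Pool.Agent.Helper39.EP.KAP.t : S_KAP`,
`Pool.Agent.Helper30.EP.REP.t pHB pSIM : S_REP`, `Pool.Agent.Helper1.EP.TRO.t : S_TRO`,
`Pool.Agent.Helper40.EP.TR.t : S_TR`, `Pool.Agent.Helper36.EP.BRM.t : S_BRM`, .. .
Name clash: the goals here are `Pool.Agent.Helper98.EQ.S_TH` etc., those of EP are
`Pool.Agent.Helper47.EP.S_TH` etc.; do not open both namespaces without care (open
`Pool.Agent.Helper47.EP (Dat Chr Hs Om ee ev kap dm pHB ..)` with a list of names).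

General action: `M : SA T A D` (`M.m d v` = `d v`, `M.s d : MulAut (Hs T A)`, `M.s d g = ⟨M.m d g.v, g.z⟩`),
`I : Imp M C` (elements `I.r d` of `RE e` with `I.r (d d') = I.r d * I.r d'`, `I.r 1 = e`,
`s_d(g) r(d) = r(d) g`), `I.map f` its image under a ring homomorphism, `Iv M x`: `x` is `D`-invariant.
-/

set_option autoImplicit false

namespace Pool.Agent.Helper98.EQ

open MonoidAlgebra IsLocalRing Pool.Agent.Helper17.PF
open Pool.Agent.Helper47.EP (Dat Chr Hs Om ee ev kap dm pHB pSIM pRHO)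

/-! ### the blocks (adaptation of the packets of project EP to a general action) -/

/-- PACKET TH (the map `θ`).
Proof.  Adapt `Pool/Agent/Helper34/EP/TH.lean` (same statement for the torus): replace `ta (toAdd (π d))` by `M.s d`,
`rho C (toAdd (π d))` by `I.r d`, `GG T A π` by `GG M`.  `th` is linear and `th (single (x,d) 1) = single x 1 * r(d)`.
(1) for basis elements: `(x,d)(y,d') = (x · s_d(y), dd')` and `I.conj`, `I.mul`.  (2) `I.one`.  (3) `th (single d 1) = r(d)`, and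
`r(d) z r(d⁻¹)` has at `M.s d g` the coefficient of `z` at `g` if `z = e z`: `I.conj`, `r(d) r(d⁻¹) = e`; `s_d(e) = e` (HB (5)
with `ev 0 = e`: `e.coeff g = if g.v = 0 then il ψ(-g.z) else 0`, and `M.m d v = 0` iff `v = 0`).  (4) `I.er` and `e` is central
(HB (2)).  (5) `mapRingHom` of `r(d)` is `(I.map f).r d` by definition. -/
def S_TH : Prop := ∀ (p : ℕ) [Fact p.Prime] (T : Dat p) (A : Type) [Fintype A] [DecidableEq A]
  (D : Type) [Group D] [Finite D] (M : SA T A D) (R : Type) [CommRing R] (C : Chr T R)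
  (I : Imp M C),
  (∀ x y, th I (x * y) = th I x * th I y) ∧
  (∀ y : MonoidAlgebra R (Hs T A), th I (inE M R y) = y * ee C A) ∧
  (∀ (d : D) (x : MonoidAlgebra R (GG M)) (g : Hs T A),
    (th I (single (SemidirectProduct.inr d) 1 * x * single (SemidirectProduct.inr d)⁻¹ 1)).coeff
      (M.s d g) = (th I x).coeff g) ∧
  (∀ x, ee C A * th I x = th I x) ∧
  (∀ (S : Type) [CommRing S] (f : R →+* S) (x : MonoidAlgebra R (GG M)),
    MonoidAlgebra.mapRingHom (Hs T A) f (th I x) =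
      th (I.map f) (MonoidAlgebra.mapRingHom (GG M) f x)) ∧
  (∀ x y, th I (x + y) = th I x + th I y) ∧ (∀ (c : R) x, th I (c • x) = c • th I x) ∧
  th I 1 = ee C A

/-- PACKET NIL (idempotents killed by `θ`; may assume TH).
Proof.  Adapt `Pool/Agent/Helper64/EP/NIL.lean`.  `ē = inE e`, `d' = inE(r(d⁻¹)) · d` for `d ∈ D` (`d` = `single (inr d) 1`).
(a) `d' y = y d'` for `y ∈ inE(FE e)`: `d y d⁻¹ = inE (s_d y)` and `I.conj`.  (b) `(d₁ d₂)' = d₁' d₂'`: `d₁' d₂' =
inE(r(d₁⁻¹)) d₁ inE(r(d₂⁻¹)) d₂ = inE(r(d₂⁻¹)) inE(r(d₁⁻¹)) d₁ d₂` by (a) applied to `y = inE(r(d₂⁻¹))` (it is in `inE(FEe)`),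
`= inE(r((d₁d₂)⁻¹)) d₁ d₂`; `1' = ē`.  (c) every `x` with `ē x = x` is `∑_d y_d d'` with `y_d ∈ inE(FE e)`.  (d) `θ(d') = e`, so
`θ(x) = ∑ y_d` and if it is `0`: `x = ∑_d y_d (d' - ē)`.  (e) `F[D] → FG`, `d ↦ d'` is multiplicative; the augmentation ideal of
`F[D]` is nilpotent (`D` a `p`-group, see NIL.lean of EP), so `x = x^N = 0`. -/
def S_NIL : Prop := ∀ (p : ℕ) [Fact p.Prime] (T : Dat p) (A : Type) [Fintype A] [DecidableEq A]
  (F : Type) [Field F] [CharP F p] (C : Chr T F) (D : Type) [Group D] [Finite D], IsPGroup p D →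
  ∀ (M : SA T A D) (I : Imp M C) (x : MonoidAlgebra F (GG M)), x * x = x →
  inE M F (ee C A) * x = x → th I x = 0 → x = 0

/-- PACKET BLK (the blocks; may assume TH, NIL).
Proof.  Adapt `Pool/Agent/Helper15/EP/BLK.lean` (uses SIM of EP: `pSIM`, which does not involve the torus).  (1) over a field:
`ē = inE e` is central (`e` is central in `FE` and invariant under `M.s d`), idempotent, `≠ 0`.  `f` a central idempotent with
`ē f = f`: `θ f` is idempotent, `e θ(f) = θ(f)` and commutes with all `y ∈ FE e`, so `θ f = c e` (SIM), `c = 0` or `1`; NIL for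
`f` or `ē - f`.  (2) over `𝒪`: `red f` is a central idempotent (`red_surjective`) below `red ē` (`= inE e` for the residue field),
so `red f = 0` or `red f = red ē` by (1) for `I.map (residue 𝒪)`, and `idem_zero`. -/
def S_BLK : Prop := ∀ (p : ℕ) [Fact p.Prime] (T : Dat p) (A : Type) [Fintype A] [DecidableEq A]
  (D : Type) [Group D] [Finite D], IsPGroup p D → ∀ (M : SA T A D),
  (∀ (F : Type) [Field F] [CharP F p] (C : Chr T F), Imp M C → IsBlock (inE M F (ee C A))) ∧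
  (∀ (𝒪 : Type) [CommRing 𝒪] [IsLocalRing 𝒪] [IsAdicComplete (maximalIdeal 𝒪) 𝒪]
    [CharP (ResidueField 𝒪) p] (C : Chr T 𝒪), Imp M C → IsBlock (inE M 𝒪 (ee C A)))

/-- PACKET CEN (the blocks of the centralisers; may assume BLK).
Proof.  Adapt `Pool/Agent/Helper87/EP/CEN.lean`.  `F` = residue field, `ē = inE e`.  (1) `C_G(1) = G` and `br_1(ē)` is the element
`inE e` over `F` transported along `G ≅ C_G(1)`; BLK (1) for `I.map (residue 𝒪)`.  (2) `C_G(D)`, `D = DD M`: `(x, d)` commutes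
with all `inr d'` iff `M.s d' x = x` for all `d'` and `d` is central in `D`.  By hypothesis `x.v = 0`.  So
`C_G(D) = {((0,z), d) : d ∈ Z(D)}`, a commutative group.  `br_D(ē)` is the sum `il ∑ ψ(-z) (0,z)`.  An idempotent `f` of
`F[C_G(D)]` with `br_D(ē) f = f` is `c br_D(ē)`, `c² = c` (power `p^N = |D|`, commutative, characteristic `p`).
`br_D(ē) ≠ 0`: coefficient `il` at `1`. -/
def S_CEN : Prop := ∀ (p : ℕ) [Fact p.Prime] (T : Dat p) (A : Type) [Fintype A] [DecidableEq A]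
  (D : Type) [Group D] [Finite D], IsPGroup p D → ∀ (M : SA T A D),
  (∀ v, (∀ d, M.m d v = v) → v = 0) →
  ∀ (𝒪 : Type) [CommRing 𝒪] [IsLocalRing 𝒪] [IsAdicComplete (maximalIdeal 𝒪) 𝒪]
    [CharP (ResidueField 𝒪) p] (C : Chr T 𝒪), Imp M C →
  IsBlock (br (⊥ : Subgroup (GG M)) (inE M 𝒪 (ee C A))) ∧
  IsBlock (br (DD M) (inE M 𝒪 (ee C A)))

/-- PACKET EXI (a primitive invariant idempotent).
Proof.  Adapt `Pool/Agent/Helper89/EP/EXI.lean` (there the invariance is under a set `J` of torus elements).  The set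
`S = {x : e x = x, D-invariant}` is a finite-dimensional subalgebra of `FE` with the unit element `e` (`e` is invariant under
`M.s d`: HB (5) for `ev 0 = e`).  Among the sets of pairwise orthogonal nonzero idempotents of `S` with sum `e` take one with
the maximal number of elements; its elements are primitive idempotents of `S`.  `e.coeff 1 = il ≠ 0`, so one of them has a
coefficient `≠ 0` at `1`. -/
def S_EXI : Prop := ∀ (p : ℕ) [Fact p.Prime] (T : Dat p) (A : Type) [Fintype A] [DecidableEq A]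
  (D : Type) [Group D] (M : SA T A D) (F : Type) [Field F] (C : Chr T F),
  ∃ i : MonoidAlgebra F (Hs T A),
    IsPrimitiveIdempotent {x : MonoidAlgebra F (Hs T A) | ee C A * x = x ∧ Iv M x} i ∧
    i.coeff 1 ≠ 0

/-- PACKET SRC (defect group and source idempotent; may assume TH, NIL).
Proof.  Adapt `Pool/Agent/Helper99/EP/SRC.lean`.  `ē = inE e`.  (1) `D` is a `p`-group, `br_D(ē)` has the coefficient
`residue(il) ≠ 0` at `1`; a `p`-subgroup `P ≥ D` of `G` is `D` by the orders.  (2) `i' = inE i` is in the fixed points: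
`i' ē = i'` and for `d ∈ D`: `d i' d⁻¹ = inE(s_d i) = i'`.  Primitive: `f` an idempotent in the fixed points with
`i' f = f = f i'`; `f₀ = θ(red f)` (for `I.map (residue 𝒪)`): idempotent, `e f₀ = f₀`, invariant under `M.s d` (TH (3)), and
`i_F f₀ = f₀ = f₀ i_F` with `i_F = red i = θ(red i')` (TH (2)).  As `i_F` is primitive: `f₀ = 0` or `f₀ = i_F`.  By NIL
`red f = 0` or `red (i' - f) = 0`, and `idem_zero`.  `br_D(i')` has the coefficient `residue(i.coeff 1) ≠ 0` at `1`. -/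
def S_SRC : Prop := ∀ (p : ℕ) [Fact p.Prime] (T : Dat p) (A : Type) [Fintype A] [DecidableEq A]
  (D : Type) [Group D] [Finite D], IsPGroup p D → ∀ (M : SA T A D)
  (𝒪 : Type) [CommRing 𝒪] [IsLocalRing 𝒪] [IsAdicComplete (maximalIdeal 𝒪) 𝒪]
    [CharP (ResidueField 𝒪) p] (C : Chr T 𝒪), Imp M C →
  IsDefectGroup p (inE M 𝒪 (ee C A)) (DD M) ∧
  ∀ i : MonoidAlgebra 𝒪 (Hs T A), i * i = i → ee C A * i = i → Iv M i →
    IsPrimitiveIdempotent {x : MonoidAlgebra (ResidueField 𝒪) (Hs T A) |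
      ee (C.map (residue 𝒪)) A * x = x ∧ Iv M x} (red 𝒪 (Hs T A) i) →
    (red 𝒪 (Hs T A) i).coeff 1 ≠ 0 →
    IsSourceIdempotent (inE M 𝒪 (ee C A)) (DD M) (inE M 𝒪 i)

/-- PACKET LFT (lifting of invariant idempotents).
Proof.  Adapt `Pool/Agent/Helper1/EP/LFT.lean` (there: invariance under a set `J` of torus elements and a condition on the
support, which is not needed here).  Choose `y` with `red y = i`, invariant under all `M.s d`: `y.coeff g = s (i.coeff g)` with a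
section `s : k → R` of the residue map.  Newton iteration `f ↦ 3 f² - 2 f³` as there: the set of the invariant elements is
closed under sums, products and limits.  Finally replace `f` by `e f`. -/
def S_LFT : Prop := ∀ (p : ℕ) [Fact p.Prime] (T : Dat p) (A : Type) [Fintype A] [DecidableEq A]
  (D : Type) [Group D] (M : SA T A D) (R : Type) [CommRing R] [IsLocalRing R]
  [IsAdicComplete (maximalIdeal R) R] (C : Chr T R) (i : MonoidAlgebra (ResidueField R) (Hs T A)),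
  i * i = i → ee (C.map (residue R)) A * i = i → Iv M i →
  ∃ i' : MonoidAlgebra R (Hs T A), i' * i' = i' ∧ ee C A * i' = i' ∧ Iv M i' ∧
    red R (Hs T A) i' = i

/-! ### the elements `r(d)` -/

/-- PACKET SCH (the Schroedinger matrices).
Proof.  `K = T.K` is killed by `l` (`w (l x) y = l w x y = 0` for all `y`, `nondeg`).  Choose `x₀ ≠ 0` and `y₀` with
`w x₀ y₀ ≠ 0`, replace `y₀` by a multiple: `w x₀ y₀ = 1`.  Every `k` is `a x₀ + b y₀` with `a, b ∈ Z/l` (the `l²` elements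
`a.val x₀ + b.val y₀` are different: apply `w · y₀`, `w x₀ ·`; `card K = l²`), `a = w k y₀`, `b = w x₀ k`, and
`w k k' = a b' - b a'`.  Put `S(k) x y = if y = x + a then ψ(a b + 2 b x) else 0`.  `S k * S k'` has at `(x, x + a + a')` the
entry `ψ(ab + 2bx + a'b' + 2b'(x + a)) = ψ(w k k') ψ((a+a')(b+b') + 2(b+b')x)`.  Trace: `a ≠ 0`: `0`; `a = 0`: `∑_x ψ(2 b x)`,
`= l` for `b = 0`, `= 0` for `b ≠ 0` (`C.sum_zero`, `l ≠ 2`). -/
def S_SCH : Prop := ∀ (p : ℕ) [Fact p.Prime] (T : Dat p) (R : Type) [CommRing R] (C : Chr T R),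
  ∃ S : T.K → Matrix (ZMod T.l) (ZMod T.l) R,
    (∀ k k', S k * S k' = C.ψ (T.w k k') • S (k + k')) ∧ S 0 = 1 ∧
    ∀ k, (S k).trace = if k = 0 then (T.l : R) else 0

/-- PACKET ONE (the torus in one coordinate; `hK : S_KAP` of EP is `Pool.Agent.Helper39.EP.KAP.t`).
Proof.  `τ(j) = ∑_y kap C j y • S y`.  `τ(j) τ(k) = ∑_{y,y'} kap j y kap k y' ψ(w y y') S(y+y') =
∑_s (∑_y kap j y kap k (s-y) ψ(w y (s-y))) S(s) = τ(j+k)` by KAP (1).  `τ(j) S(k) = ∑_y kap j y ψ(w y k) S(y+k)` and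
`S(t_j k) τ(j) = ∑_y kap j y ψ(w (t_j k) y) S(t_j k + y)`: compare the coefficients of `S(s)`, KAP (2).  `τ(0) = S 0 = 1`
(`kap C 0 y = [y = 0]`).  Trace: `l kap j 0`, `= l (-il) = -1` for `j ≠ 0` (KAP (4)). -/
def S_ONE : Prop := ∀ (p : ℕ) [Fact p.Prime] (T : Dat p) (R : Type) [CommRing R] (C : Chr T R)
  (S : T.K → Matrix (ZMod T.l) (ZMod T.l) R),
  (∀ k k', S k * S k' = C.ψ (T.w k k') • S (k + k')) → S 0 = 1 →
  (∀ k, (S k).trace = if k = 0 then (T.l : R) else 0) →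
  ∃ τ : ZMod p → Matrix (ZMod T.l) (ZMod T.l) R, τ 0 = 1 ∧ (∀ j k, τ (j + k) = τ j * τ k) ∧
    (∀ j k, τ j * S k = S (T.t j k) * τ j) ∧
    ∀ j, (τ j).trace = if j = 0 then (T.l : R) else -1

/-- PACKET TEN (tensor products of matrices).
Proof.  (1) `(tn f * tn g) x y = ∑_w ∏_a f_a(x_a,w_a) g_a(w_a,y_a) = ∏_a ∑_t f_a(x_a,t) g_a(t,y_a)`
(`Finset.prod_univ_sum`, `Fintype.piFinset_univ`).  (2) `∏_a [x_a = y_a] = [x = y]`.  (3) `Finset.prod_mul_distrib`.
(4) as (1).  (5) `∑_w [x_a = w_(g⁻¹a)][w_a = y_(h⁻¹a)]`: only `w = y ∘ h⁻¹`, and `h⁻¹ g⁻¹ = (g h)⁻¹`.  (7) the only `w` with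
`x_a = w_(g⁻¹ a)` is `w = x ∘ g`; `∏_a f_a(x_(ga), y_a) = ∏_a f_(g⁻¹a)(x_a, y_(g⁻¹a))`, and on the right only
`w = y ∘ g⁻¹` contributes. -/
def S_TEN : Prop := ∀ (A n R : Type) [Fintype A] [DecidableEq A] [Fintype n] [DecidableEq n]
  [CommRing R],
  (∀ f g : A → Matrix n n R, tn f * tn g = tn fun a => f a * g a) ∧
  (tn (fun _ : A => (1 : Matrix n n R)) = 1) ∧
  (∀ (c : A → R) (f : A → Matrix n n R), tn (fun a => c a • f a) = (∏ a, c a) • tn f) ∧
  (∀ f : A → Matrix n n R, (tn f).trace = ∏ a, (f a).trace) ∧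
  (∀ g h : Equiv.Perm A, pm (n := n) R (g * h) = pm R g * pm R h) ∧
  (pm (A := A) (n := n) R 1 = 1) ∧
  (∀ (g : Equiv.Perm A) (f : A → Matrix n n R),
    pm R g * tn f = tn (fun a => f (g⁻¹ a)) * pm R g)

/-- PACKET PHI (the isomorphism of `RE e` with the matrix algebra; may assume TEN).
Proof.  `φ(g) = ψ(g.z) • tn (S ∘ g.v)` is multiplicative: `tn(S ∘ v) tn(S ∘ v') = ψ(Om v v') tn(S ∘ (v + v'))` (TEN (1), (3),
`∏_a ψ(w(v_a,v'_a)) = ψ(∑ ..)`), `φ(1) = 1` (TEN (2)); `Φ = MonoidAlgebra.lift` of it.  `Φ(e) = il ∑_z ψ(-z) ψ(z) = il l = 1`.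
`ev v = single (v,0) 1 * e`, so `Φ(ev v) = tn(S ∘ v)`.  By HB (6) `y = ∑_v (l y.coeff (v,0)) • ev v` if `e y = y`, and
`trace tn(S ∘ v) = l^|A| [v = 0]` (TEN (4)), which gives the trace formula.  Injective: for `w`:
`Φ(y) tn(S ∘ (-w)) = ∑_v c_v ψ(..) tn(S ∘ (v - w))` has the trace `c_w l^|A| ψ(-Om w w) = c_w l^|A|`, `l` invertible.
Surjective: the map `R^V → M`, `c ↦ ∑ c_v tn(S ∘ v)`, has the left inverse
`M → R^V`, `m ↦ (il^|A| trace(m tn(S ∘ (-w))))_w`; both are free of rank `l^(2|A|)` (`card K = l²`), and a surjective linear map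
between free modules of the same finite rank is bijective (`OrzechProperty`, `LinearMap.bijective_of_surjective..`,
`Module.Finite.injective_of_surjective_endomorphism` after a choice of an isomorphism `M ≅ R^V`), so `R^V → M` is bijective. -/
def S_PHI : Prop := ∀ (p : ℕ) [Fact p.Prime] (T : Dat p) (A : Type) [Fintype A] [DecidableEq A]
  (R : Type) [CommRing R] (C : Chr T R) (S : T.K → Matrix (ZMod T.l) (ZMod T.l) R),
  (∀ k k', S k * S k' = C.ψ (T.w k k') • S (k + k')) → S 0 = 1 →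
  (∀ k, (S k).trace = if k = 0 then (T.l : R) else 0) →
  ∃ Φ : MonoidAlgebra R (Hs T A) →ₐ[R] Matrix (A → ZMod T.l) (A → ZMod T.l) R,
    (∀ g : Hs T A, Φ (single g 1) = C.ψ g.z • tn fun a => S (g.v a)) ∧ Φ (ee C A) = 1 ∧
    (∀ m, ∃ y, ee C A * y = y ∧ Φ y = m) ∧
    (∀ y, ee C A * y = y → Φ y = 0 → y = 0) ∧
    (∀ y, ee C A * y = y → (Φ y).trace = (T.l : R) ^ (Fintype.card A + 1) * y.coeff 1)

/-- PACKET IMP (the elements `r(d)`; may assume TEN).
Proof.  `P(d) = tn(τ ∘ c(d,·)) * pm(d)`.  `P(d)P(d') = P(dd')`: `pm(d) tn(τ ∘ c(d',·)) = tn(a ↦ τ(c(d', d⁻¹a))) pm(d)` (TEN (7)),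
TEN (1), (5), `τ(j+k) = τ(j)τ(k)` and `hc`; `P(1) = 1` (`c(1,a) = 0` from `hc`).  `P(d) Φ(g) = Φ(s_d g) P(d)`: TEN (7), (1) and
`τ(j) S(k) = S(t_j k) τ(j)`; `s_d g = ⟨a ↦ t_(c(d,a)) (g.v (d⁻¹a)), g.z⟩` by definition of `mono`.  `r(d)` := the `y` with
`e y = y` and `Φ y = P(d)`.  The equations for `r` follow by applying `Φ`, which is injective on `{y | e y = y}` (differences
of such elements; `e` is central and idempotent: HB (1), (2)). -/
def S_IMP : Prop := ∀ (p : ℕ) [Fact p.Prime] (T : Dat p) (A : Type) [Fintype A] [DecidableEq A]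
  (D : Type) [Group D] [MulAction D A] (c : D → A → ZMod p) (hc : Coc c) (R : Type) [CommRing R]
  (C : Chr T R) (S : T.K → Matrix (ZMod T.l) (ZMod T.l) R)
  (τ : ZMod p → Matrix (ZMod T.l) (ZMod T.l) R), τ 0 = 1 → (∀ j k, τ (j + k) = τ j * τ k) →
  (∀ j k, τ j * S k = S (T.t j k) * τ j) →
  ∀ Φ : MonoidAlgebra R (Hs T A) →ₐ[R] Matrix (A → ZMod T.l) (A → ZMod T.l) R,
    (∀ g : Hs T A, Φ (single g 1) = C.ψ g.z • tn fun a => S (g.v a)) → Φ (ee C A) = 1 →
    (∀ m, ∃ y, ee C A * y = y ∧ Φ y = m) → (∀ y, ee C A * y = y → Φ y = 0 → y = 0) →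
    ∃ I : Imp (mono T c hc) C, ∀ d : D,
      Φ (I.r d) = tn (fun a => τ (c d a)) * pm R (MulAction.toPerm d)

/-- PACKET CYC (the trace of a monomial tensor; may assume TEN).
Proof.  Choose a representative in every orbit (cycle) of `g`.  There are `h, j' : A → Z/p` with
`j a = j' a + h a - h (g⁻¹ a)`, `j' = 0` outside the representatives and `j'(r) = j_o = ∑_{a ∈ o} j a` for the representative
`r` of `o`: for `a = g^i r`, `0 ≤ i < |o|`, put `h a = ∑_{1 ≤ t ≤ i} j (g^t r)`.  By TEN (7), (1):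
`tn(τ∘j) pm(g) = tn(τ∘h) tn(τ∘j') pm(g) tn(τ∘(-h))`, so it has the trace of `tn(τ∘j') pm(g)`
(`tn(τ∘(-h)) tn(τ∘h) = 1`, `Matrix.trace_mul_comm`), which is `∑_x ∏_a τ(j' a)(x_a, x_(g⁻¹a))`; as `τ(0) = 1` only the `x` which
are constant on the orbits contribute: `∑_{y : orbits → n} ∏_o τ(j_o)(y_o,y_o) = ∏_o trace τ(j_o)` (`Finset.prod_univ_sum`),
the product of `nz g j` factors `-1` and of the other factors `L`.  (Or induction on the number of elements of `A`.) -/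
def S_CYC : Prop := ∀ (p : ℕ) [Fact p.Prime] (A n R : Type) [Fintype A] [DecidableEq A] [Fintype n]
  [DecidableEq n] [CommRing R] (τ : ZMod p → Matrix n n R) (L : ℕ), τ 0 = 1 →
  (∀ j k, τ (j + k) = τ j * τ k) → (∀ j, (τ j).trace = if j = 0 then (L : R) else -1) →
  ∀ (g : Equiv.Perm A) (j : A → ZMod p), ∃ c : ℕ,
    (tn (fun a => τ (j a)) * pm R g).trace = (-1) ^ nz g j * (L : R) ^ c

/-- PACKET SET (the cocycle of the `D`-set `AS p D`).
Proof.  (1) `(s x)⁻¹ d d' s(d'⁻¹d⁻¹x) = ((s x)⁻¹ d s(d⁻¹x)) (s(d⁻¹x)⁻¹ d' s(d'⁻¹d⁻¹x))`, `s = Quotient.out`, and `chi` is a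
homomorphism.  (2) `a = (C, x)`: take `c₀ ∈ C`, `c₀ ≠ 1`, `d = s(x) c₀ s(x)⁻¹`: `d x = s(x) c₀ C = x` and
`cc d a = chi(c₀) ≠ 0`. -/
def S_SET : Prop := ∀ (p : ℕ) [Fact p.Prime] (D : Type) [Group D] [Finite D],
  Coc (A := AS p D) (D := D) cc ∧ ∀ a : AS p D, ∃ d : D, d • a = a ∧ cc d a ≠ 0

/-- PACKET PAR (the parity; may assume SET).
Proof.  `u ≠ 1`, `q` = the order of `u` (a power of `p`), `P` = the subgroup of order `p` of `⟨u⟩`, generated by
`z₀ = u^(q/p)`; `⟨u⟩` has no other subgroup of order `p`, and every nontrivial subgroup of `⟨u⟩` contains `P`.  By (1) of SET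
`c(u^n, a) = ∑_{i<n} c(u, u^(-i) a)`, so for an orbit `o` of `u` and `a ∈ o`: `∑_{a' ∈ o} c(u,a') = c(u^|o|, a)`.  The stabiliser of
`a = (C, xC)` in `⟨u⟩` is `⟨u⟩ ∩ xCx⁻¹`, generated by `u^|o|`.  If it is trivial, `|o| = q` and the sum is `c(1,a) = 0`.  If not, it is
`xCx⁻¹ = P`, `|o| = q/p`, and the sum is `chi_C(s(a)⁻¹ u^(q/p) s(a)) ≠ 0`.  So `nz` is the number of the `u`-orbits on
`A_u = {a | z₀ a = a}`, all of length `q/p`: `nz * (q/p) = |A_u|`.  `|A_u| = |D|/p`: the map `D → A_u`,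
`x ↦ (x⁻¹Px, x(x⁻¹Px))` is surjective and its fibres are the cosets `Px`.  So `nz * q = |D|`, and `|D|` is odd (a power of the odd
prime `p`). -/
def S_PAR : Prop := ∀ (p : ℕ) [Fact p.Prime] (D : Type) [Group D] [Finite D], p ≠ 2 →
  IsPGroup p D → ∀ u : D, u ≠ 1 →
  Odd (nz (MulAction.toPerm u : Equiv.Perm (AS p D)) (cc u))

/-! ### the path lemma -/

/-- PACKET ORB (orbit sums).
Proof.  `S` acts on `{ω | S^(p^s) ω ≠ ω}`; every orbit of `⟨S⟩` has `p^j` elements (`p^j ∣ p^m`), with `j ≥ s + 1`, since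
`j ≤ s` would imply `S^(p^s) ω = ω`; `f` is constant on it.  Sum over the orbits (`Finset.sum_fiberwise` for the quotient by
`Equiv.Perm.SameCycle.setoid S`, or strong induction on the invariant set: remove one orbit; `Function.minimalPeriod`). -/
def S_ORB : Prop := ∀ (p : ℕ) [Fact p.Prime] (R Ω : Type) [CommRing R] [Fintype Ω] [DecidableEq Ω]
  (S : Equiv.Perm Ω) (m s : ℕ), S ^ p ^ m = 1 → ∀ f : Ω → R, (∀ ω, f (S ω) = f ω) →
  ∃ c : R, ∑ ω ∈ Finset.univ.filter (fun ω => (S ^ p ^ s) ω ≠ ω), f ω = (p : R) ^ (s + 1) * c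

/-- PACKET PATH (the path lemma; may assume ORB).
Proof.  `N = p^s`.  `Ω` = the set of the functions `w : ℤ → X` with `w (i + N) = z (w i)` for all `i` (in bijection with
`Fin N → X` by restriction, so finite).  `f w = ∏_{0 ≤ i < N} π (w i) (w (i+1))`.  Then `∑_x (π^N) x (z x) = ∑_{w ∈ Ω} f w`
(expand the matrix power: `(π^n) x y` is the sum over the `v : Fin (n+1) → X` (or `ℕ → X` cut off) with `v 0 = x`, `v n = y` of
the products).  `(S w) i = w (i + 1)` is a permutation of `Ω`, `f (S w) = f w` (`π (w N) (w (N+1)) = π (z w 0) (z w 1) =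
π (w 0) (w 1)`), `S^N w = z ∘ w`, `S^(N p^k) = 1`.  `S^N w = w` iff all `w i` are fixed by `z`; these `w` give the trace of the
`N`-th power of the submatrix (same expansion for `X^z` and `z = 1`).  ORB with `m = s + k`.  (You may also use
`Fin N → X` with the twisted shift `(S w) i = w (i+1)` for `i + 1 < N`, `(S w) (N-1) = z (w 0)`.) -/
def S_PATH : Prop := ∀ (p : ℕ) [Fact p.Prime] (R X : Type) [CommRing R] [Fintype X] [DecidableEq X]
  (z : Equiv.Perm X) (k s : ℕ), z ^ p ^ k = 1 → ∀ π : Matrix X X R,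
  (∀ x y, π (z x) (z y) = π x y) →
  ∃ c : R, ∑ x, (π ^ p ^ s) x (z x) =
    ((π.submatrix (Subtype.val : {x // z x = x} → X) Subtype.val) ^ p ^ s).trace +
      (p : R) ^ (s + 1) * c

/-- PACKET IDR (traces of idempotent matrices over local rings).
Proof.  `Q` idempotent: `R^X = Q R^X ⊕ (1-Q) R^X`, so `Q R^X` is finitely generated projective, free as `R` is local
(`Module.free_of_flat_of_isLocalRing` or `Module.free_of_isLocalRing..`), with a basis of `m` elements.  So `Q = B C` with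
matrices `B : X × Fin m`, `C : Fin m × X`, `C B = 1` (`B` = the basis vectors as columns, `C` = the coordinates of `Q x`).
`trace Q = trace (C B) = m`; and for a ring homomorphism `f` to a field `k`: `f(Q) = f(B) f(C)`, `f(C) f(B) = 1`, so the rank of
`f(Q)` is `m`. -/
def S_IDR : Prop := ∀ (R X : Type) [CommRing R] [IsLocalRing R] [Fintype X] [DecidableEq X]
  (Q : Matrix X X R), Q * Q = Q →
  ∃ m : ℕ, Q.trace = (m : R) ∧ ∀ (k : Type) [Field k] (f : R →+* k), (Q.map f).rank = m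

/-- PACKET TRZ (the trace of `z π`; may assume ORB, PATH, IDR).
Proof.  `Π` = the submatrix of `π` on the fixed points of `z`, `b` = the rank of `Π` modulo the maximal ideal `(p)`.
(1) `Π² = Π` modulo `p`: for fixed `x`, `y`: `π x y = ∑_w π x w π w y`, the sum over the `w` with `z w ≠ w` is in `p R` (ORB with
`S = z`, `s = 0`).  (2) So `(Π^(p^s))² = Π^(p^s)` modulo `p^(s+1)`: if `x² = x + p^j u`, `j ≥ 1`, `u` commuting with `x` (take
`u` in the matrices; `x² - x` commutes with `x` and `R` is a domain of characteristic `0`), then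
`(x^p)² = (x + p^j u)^p = x^p + p^(j+1) u'`.  (3) `R' = R/(p^(s+1))` is a local ring; the image `Q'` of `Π^(p^s)` is idempotent;
IDR with `f : R' → k` (residue field of `R`): `trace Q' = rank(Π̄^(p^s)) = rank Π̄ = b` in `R'`.  (4) `∑_x π x (z x) =
∑_x (π^(p^s)) x (z x) = trace(Π^(p^s)) = b` modulo `p^(s+1)` for all `s` (PATH), so equality (`R` is separated).
(5) If `Π̄` has a nonzero diagonal entry, its rank is `≥ 1`. -/
def S_TRZ : Prop := ∀ (p : ℕ) [Fact p.Prime] (R : Type) [CommRing R] [IsDomain R] [IsLocalRing R]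
  [IsAdicComplete (maximalIdeal R) R], CharZero R → maximalIdeal R = Ideal.span {(p : R)} →
  ∀ (X : Type) [Fintype X] [DecidableEq X] (z : Equiv.Perm X) (k : ℕ), z ^ p ^ k = 1 →
  ∀ π : Matrix X X R, π * π = π → (∀ x y, π (z x) (z y) = π x y) →
  ∃ b : ℕ, ∑ x, π x (z x) = (b : R) ∧ ((∃ x, z x = x ∧ residue R (π x x) ≠ 0) → 1 ≤ b)

/-! ### the inequality -/

/-- PACKET TRE (the trace of `x ↦ a x b`).
Proof.  `(a h b).coeff h = ∑_x a.coeff x · b.coeff (h⁻¹ x⁻¹ h)`.  `h⁻¹ x⁻¹ h = (-x.v, -x.z + 2 Om(x.v, h.v))` up to the sign of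
the last term.  `b = e b` implies `b.coeff (v, z) = b.coeff (v, 0) ψ(-z)` (HB (6), (5)), the same for `a`.  Sum over `h`: for
`x.v ≠ 0` the map `h.v ↦ 2 Om(x.v, h.v)` is a nonzero homomorphism `V → Z/l` (one coordinate, `nondeg`), so the sum of `ψ` of
it is `0` (fibres of the same size, `sum_zero`).  For `x.v = 0`: `b.coeff (0, -x.z) = b.coeff 1 ψ(x.z)`, `|E|` times.  Total:
`|E| b.coeff 1 ∑_z a.coeff (0,z) ψ(z) = |E| b.coeff 1 · l a.coeff 1`, `|E| = l^(2|A|+1)`. -/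
def S_TRE : Prop := ∀ (p : ℕ) [Fact p.Prime] (T : Dat p) (A : Type) [Fintype A] [DecidableEq A]
  (R : Type) [CommRing R] (C : Chr T R) (a b : MonoidAlgebra R (Hs T A)), ee C A * a = a →
  ee C A * b = b →
  ∑ h : Hs T A, (a * single h 1 * b).coeff h =
    (T.l : R) ^ (2 * Fintype.card A + 2) * a.coeff 1 * b.coeff 1

/-- PACKET TRU (the trace of `x ↦ u(i x)`; may assume TRE).
Proof.  Let `s = M.s u` and `s(x)` = `mapDomain`: `s(x).coeff (s g) = x.coeff g`.  For `y = e y`: `r(u) y r(u⁻¹) = s(y)`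
(`I.conj`: `r(u) y = s(y) r(u)`, `r(u) r(u⁻¹) = e`, `s(y) e = s(y e) = s(y)`; see `rho_conj` in
`Pool/Agent/Helper34/EP/TH.lean`).  With `a = r(u) * i`, `b = r(u⁻¹)`: `a * single h 1 * b = r(u) (i h) r(u⁻¹) = s(i h)`
(`e (i h) = i h`), its coefficient at `h` is `(i h).coeff (s⁻¹ h) = i.coeff (s⁻¹(h) h⁻¹)`; sum over `h = s g`. -/
def S_TRU : Prop := ∀ (p : ℕ) [Fact p.Prime] (T : Dat p) (A : Type) [Fintype A] [DecidableEq A]
  (D : Type) [Group D] (M : SA T A D) (R : Type) [CommRing R] (C : Chr T R) (I : Imp M C)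
  (i : MonoidAlgebra R (Hs T A)), ee C A * i = i → ∀ u : D,
  ∑ g : Hs T A, i.coeff (g * (M.s u g)⁻¹) =
    (T.l : R) ^ (2 * Fintype.card A + 2) * (I.r u * i).coeff 1 * (I.r u⁻¹).coeff 1

/-- PACKET FIN (the final inequality).
Proof.  Let `k` be an algebraic closure of the fraction field of `R` (characteristic `0`).  `t(u) = trace(P(u) J)`.
(1) `X₀ = P(u) J` satisfies `X₀^(N+1) = X₀` for `N` = the order of `u` (`J` commutes with `P(u)`, `J² = J`, `P(u)^N = 1`), so its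
eigenvalues in `k` (`Matrix.trace_eq_sum_roots_charpoly`; every root of the characteristic polynomial is an eigenvalue)
satisfy `μ^(N+1) = μ`, so `t(u)` is integral over `ℤ`.  For `u ≠ 1` it is the rational number `-b/a` (`a ≠ 0` as `b ≥ 1`), so
an integer (`IsIntegrallyClosed ℤ`), and `≤ -1`.  (2) `e₀ = |D|⁻¹ ∑_u P(u)` over `k` is idempotent and commutes with `J`, so
`e₀ J` is idempotent and its trace is a natural number (its rank; `LinearMap.IsProj.trace`, see the proof of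
`Pool/Agent/Helper40/EP/TR.lean`).  `|D| trace(e₀ J) = ∑_u t(u) = n + ∑_{u ≠ 1} t(u)` (`t(1) = trace J = n`), so
`n ≥ -∑_{u ≠ 1} t(u) ≥ |D| - 1`. -/
def S_FIN : Prop := ∀ (R X D : Type) [CommRing R] [IsDomain R] [Fintype X] [DecidableEq X] [Group D]
  [Finite D], CharZero R → ∀ (P : D →* Matrix X X R) (J : Matrix X X R), J * J = J →
  (∀ d, P d * J = J * P d) → ∀ n : ℕ, J.trace = (n : R) →
  (∀ u : D, u ≠ 1 → ∃ a b : ℕ, 1 ≤ b ∧ (a : R) * (P u * J).trace = -(b : R)) →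
  Nat.card D ≤ n + 1

/-! ### the assembly -/

/-- NUF (helper98): the inequality over an algebraically closed field -/
def S_NUF : Prop := ∀ (p : ℕ) [Fact p.Prime], p ≠ 2 → ∀ (T : Dat p) (D : Type) [Group D] [Finite D],
  IsPGroup p D → ∀ (hc : Coc (A := AS p D) (D := D) cc) (F : Type) [Field F] [IsAlgClosed F]
  [CharP F p] (C : Chr T F) (i : MonoidAlgebra F (Hs T (AS p D))), i * i = i →
  ee C (AS p D) * i = i → Iv (mono T cc hc) i → i.coeff 1 ≠ 0 →
  Nat.card D * T.l ^ Fintype.card (AS p D) ≤ dm i + T.l ^ Fintype.card (AS p D)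

/-- BLOCKS (helper47; may assume TH, NIL, BLK, CEN, EXI, SRC, LFT): the multiplicity of the block of `Hs T A ⋊ D` -/
def S_BLOCKS : Prop := ∀ (p : ℕ) [Fact p.Prime] (T : Dat p) (A : Type) [Fintype A] [DecidableEq A]
  (D : Type) [Group D] [Finite D], IsPGroup p D → ∀ (M : SA T A D),
  (∀ v, (∀ d, M.m d v = v) → v = 0) →
  ∀ (𝒪 : Type) [CommRing 𝒪] [IsLocalRing 𝒪] [IsNoetherianRing 𝒪]
    [IsAdicComplete (maximalIdeal 𝒪) 𝒪] [IsAlgClosed (ResidueField 𝒪)]
    [CharP (ResidueField 𝒪) p] (C : Chr T 𝒪), Imp M C →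
  ∃ (i : MonoidAlgebra (ResidueField 𝒪) (Hs T A)) (n : ℕ), i * i = i ∧
    ee (C.map (residue 𝒪)) A * i = i ∧ Iv M i ∧ i.coeff 1 ≠ 0 ∧
    dm i ≤ T.l ^ Fintype.card A * n ∧ Pool.Agent.Helper47.EP.OccursIn 𝒪 p D n

/-- the theorem -/
def S_MAIN : Prop := ∀ (p : ℕ) [Fact p.Prime], p ≠ 2 → ∀ (𝒪 : Type) [CommRing 𝒪] [IsLocalRing 𝒪]
  [IsNoetherianRing 𝒪] [IsAdicComplete (maximalIdeal 𝒪) 𝒪] [IsAlgClosed (ResidueField 𝒪)]
  [CharP (ResidueField 𝒪) p] (D : Type) [Group D] [Finite D], IsPGroup p D →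
  ∃ n, Pool.Agent.Helper47.EP.OccursIn 𝒪 p D n ∧ Nat.card D ≤ n + 1

end Pool.Agent.Helper98.EQ
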