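import Pool.Agent.Helper47.EP.Final
import Mathlib

/-!
# Project EQ (MP_5b9a11_al): some multiplicity is at least `|D| - 1`, for every `D`; definitions

Paper proof: MP_5b9a11_al_helper98.md in the store.  The Heisenberg group algebra, the data `T : Dat p`,
the characters `C : Chr T R`, `ee C A`, `ev C v`, `kap C j y`, `dm` are those of project EP
(`Pool/Agent/Helper47/EP/Defs.lean`).
-/

set_option autoImplicit false
set_option linter.unusedSectionVars false

namespace Pool.Agent.Helper98.EQ

open MonoidAlgebra IsLocalRing Pool.Agent.Helper17.PF Pool.Agent.Helper47.EP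

variable {p : ℕ} {T : Dat p} {A : Type} [Fintype A] [DecidableEq A] {D : Type} [Group D]

/-- an action of the group `D` on `K^A` by isometries of the symplectic form -/
structure SA (T : Dat p) (A : Type) [Fintype A] [DecidableEq A] (D : Type) [Group D] where
  m : D → (A → T.K) → (A → T.K)
  one : ∀ v, m 1 v = v
  mul : ∀ d d' v, m (d * d') v = m d (m d' v)
  add : ∀ d v w, m d (v + w) = m d v + m d w
  om : ∀ d v w, Om (m d v) (m d w) = Om v w

theorem SA.inv_left (M : SA T A D) (d : D) (v : A → T.K) : M.m d⁻¹ (M.m d v) = v := by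
  rw [← M.mul, inv_mul_cancel, M.one]

theorem SA.inv_right (M : SA T A D) (d : D) (v : A → T.K) : M.m d (M.m d⁻¹ v) = v := by
  rw [← M.mul, mul_inv_cancel, M.one]

/-- the automorphism of the Heisenberg group -/
def SA.sa (M : SA T A D) (d : D) : Hs T A ≃* Hs T A where
  toFun g := ⟨M.m d g.v, g.z⟩
  invFun g := ⟨M.m d⁻¹ g.v, g.z⟩
  left_inv g := by
    ext1
    · exact M.inv_left d _
    · rfl
  right_inv g := by
    ext1
    · exact M.inv_right d _
    · rfl
  map_mul' g h := by
    ext1
    · exact M.add d _ _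
    · show g.z + h.z + Om g.v h.v = g.z + h.z + Om (M.m d g.v) (M.m d h.v)
      rw [M.om]

theorem SA.sa_v (M : SA T A D) (d : D) (g : Hs T A) : (M.sa d g).v = M.m d g.v := rfl
theorem SA.sa_z (M : SA T A D) (d : D) (g : Hs T A) : (M.sa d g).z = g.z := rfl

/-- the action of `D` on the Heisenberg group -/
def SA.s (M : SA T A D) : D →* MulAut (Hs T A) where
  toFun d := M.sa d
  map_one' := by
    ext1 g
    show (⟨M.m 1 g.v, g.z⟩ : Hs T A) = g
    rw [M.one]
  map_mul' d d' := by
    ext1 g
    show (⟨M.m (d * d') g.v, g.z⟩ : Hs T A) = ⟨M.m d (M.m d' g.v), g.z⟩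
    rw [M.mul]

theorem SA.s_apply (M : SA T A D) (d : D) (g : Hs T A) : M.s d g = ⟨M.m d g.v, g.z⟩ := rfl

/-- `x` is invariant under `D` -/
def Iv (M : SA T A D) {R : Type} [CommRing R] (x : MonoidAlgebra R (Hs T A)) : Prop :=
  ∀ (d : D) (g : Hs T A), x.coeff (M.s d g) = x.coeff g

/-- elements `r d` of `RE e` which implement the action of `D` -/
structure Imp (M : SA T A D) {R : Type} [CommRing R] (C : Chr T R) where
  r : D → MonoidAlgebra R (Hs T A)
  er : ∀ d, ee C A * r d = r d
  one : r 1 = ee C A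
  mul : ∀ d d', r (d * d') = r d * r d'
  conj : ∀ (d : D) (g : Hs T A), single (M.s d g) (1 : R) * r d = r d * single g (1 : R)

/-- the image under a ring homomorphism -/
noncomputable def Imp.map [Fact p.Prime] {M : SA T A D} {R S : Type} [CommRing R] [CommRing S]
    {C : Chr T R} (I : Imp M C) (f : R →+* S) : Imp M (C.map f) where
  r d := MonoidAlgebra.mapRingHom (Hs T A) f (I.r d)
  er d := by
    rw [← ((pHB p T A R C).2.2.2.2.2.2 S f).1, ← map_mul, I.er]
  one := by
    rw [I.one, ((pHB p T A R C).2.2.2.2.2.2 S f).1]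
  mul d d' := by
    rw [I.mul, map_mul]
  conj d g := by
    have h := congrArg (MonoidAlgebra.mapRingHom (Hs T A) f) (I.conj d g)
    rw [map_mul, map_mul, mapRingHom_single, mapRingHom_single, map_one] at h
    exact h

/-! ### the group `G = E ⋊ D` -/

/-- the group `G = E ⋊ D` -/
abbrev GG (M : SA T A D) : Type := Hs T A ⋊[M.s] D

/-- the subgroup `D` of `G` -/
def DD (M : SA T A D) : Subgroup (GG M) := (SemidirectProduct.inr : D →* GG M).range

/-- the embedding of the group algebra of `E` -/
noncomputable def inE (M : SA T A D) (R : Type) [CommRing R] :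
    MonoidAlgebra R (Hs T A) →+* MonoidAlgebra R (GG M) :=
  MonoidAlgebra.mapDomainRingHom R (SemidirectProduct.inl : Hs T A →* GG M)

/-- the map `θ : RG → RE e`, `(x, d) ↦ x r(d)` -/
noncomputable def th {M : SA T A D} {R : Type} [CommRing R] {C : Chr T R} (I : Imp M C)
    (x : MonoidAlgebra R (GG M)) : MonoidAlgebra R (Hs T A) :=
  x.coeff.sum fun g c => c • (single g.left (1 : R) * I.r g.right)

/-! ### monomial actions -/

/-- the cocycle condition for `c : D → A → Z/p` -/
def Coc [MulAction D A] (c : D → A → ZMod p) : Prop :=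
  ∀ (d d' : D) (a : A), c (d * d') a = c d a + c d' (d⁻¹ • a)

/-- the action `(d v)_a = ζ^(c d a) v_(d⁻¹ a)` -/
def mono (T : Dat p) [MulAction D A] (c : D → A → ZMod p) (hc : Coc c) : SA T A D where
  m d v := fun a => T.t (c d a) (v (d⁻¹ • a))
  one v := by
    have h : ∀ a, c 1 a = 0 := by
      intro a
      have h1 := hc 1 1 a
      rw [mul_one, inv_one, one_smul] at h1
      exact left_eq_add.1 h1
    funext a
    show T.t (c 1 a) (v ((1 : D)⁻¹ • a)) = v a
    rw [h a, inv_one, one_smul, T.t_zero]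
  mul d d' v := by
    funext a
    show T.t (c (d * d') a) (v ((d * d')⁻¹ • a)) =
      T.t (c d a) (T.t (c d' (d⁻¹ • a)) (v (d'⁻¹ • d⁻¹ • a)))
    rw [hc, T.t_add, mul_inv_rev, mul_smul]
  add d v w := by
    funext a
    exact map_add _ _ _
  om d v w := by
    unfold Om
    have h : ∀ a, T.w (T.t (c d a) (v (d⁻¹ • a))) (T.t (c d a) (w (d⁻¹ • a))) =
        T.w (v (d⁻¹ • a)) (w (d⁻¹ • a)) := fun a => T.inv _ _ _
    rw [Finset.sum_congr rfl fun a _ => h a]
    exact Equiv.sum_comp (MulAction.toPerm (d⁻¹ : D)) fun a => T.w (v a) (w a)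

/-! ### tensor products of matrices -/

/-- the tensor product of the matrices `f a`, `a ∈ A` -/
def tn {A n R : Type} [Fintype A] [CommRing R] (f : A → Matrix n n R) :
    Matrix (A → n) (A → n) R :=
  fun x y => ∏ a, f a (x a) (y a)

/-- the permutation `g` of the tensor factors -/
def pm {A n : Type} (R : Type) [Fintype A] [DecidableEq n] [CommRing R] (g : Equiv.Perm A) :
    Matrix (A → n) (A → n) R :=
  fun x y => if ∀ a, x a = y (g⁻¹ a) then 1 else 0

/-- the number of the orbits of `g` on `A` on which the sum of `j` is `≠ 0` -/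
noncomputable def nz {A : Type} [Fintype A] {p : ℕ} (g : Equiv.Perm A) (j : A → ZMod p) : ℕ := by
  classical
  exact Nat.card {o : Quotient (Equiv.Perm.SameCycle.setoid g) //
    ∑ a ∈ Finset.univ.filter (fun a => (Quotient.mk (Equiv.Perm.SameCycle.setoid g) a) = o), j a ≠ 0}

/-! ### the `D`-set `A` and its cocycle -/

section DSet

variable (p) (D : Type) [Group D]

/-- the pairs `(C, xC)`, `C ≤ D` a subgroup of order `p` -/
def AS : Type := Σ C : {C : Subgroup D // Nat.card C = p}, D ⧸ C.1

noncomputable instance [Finite D] : Fintype (AS p D) := by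
  unfold AS
  have : Finite (Σ C : {C : Subgroup D // Nat.card C = p}, D ⧸ C.1) := inferInstance
  exact Fintype.ofFinite _

noncomputable instance : DecidableEq (AS p D) := Classical.decEq _

instance : MulAction D (AS p D) where
  smul d a := ⟨a.1, d • a.2⟩
  one_smul a := by
    show (⟨a.1, (1 : D) • a.2⟩ : AS p D) = a
    rw [one_smul]
    rfl
  mul_smul d d' a := by
    show (⟨a.1, (d * d') • a.2⟩ : AS p D) = ⟨a.1, d • d' • a.2⟩
    rw [mul_smul]

variable {p D}

theorem AS.smul_def (d : D) (a : AS p D) : d • a = ⟨a.1, d • a.2⟩ := rfl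

/-- an isomorphism of `C` with `Z/p` -/
noncomputable def chi [Fact p.Prime] (C : {C : Subgroup D // Nat.card C = p}) :
    C.1 ≃* Multiplicative (ZMod p) :=
  mulEquivOfPrimeCardEq (p := p) C.2 (by
    rw [Nat.card_congr Multiplicative.toAdd, Nat.card_zmod])

theorem cc_mem (d : D) (a : AS p D) :
    (Quotient.out a.2)⁻¹ * d * Quotient.out (d⁻¹ • a.2) ∈ a.1.1 := by
  rw [mul_assoc]
  refine QuotientGroup.eq.1 ?_
  rw [QuotientGroup.out_eq']
  have h : ((d * Quotient.out (d⁻¹ • a.2) : D) : D ⧸ a.1.1) = d • (d⁻¹ • a.2) := by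
    conv_rhs => rw [← QuotientGroup.out_eq' (d⁻¹ • a.2)]
    rfl
  rw [h, smul_inv_smul]

/-- the cocycle: `c(d, (C, xC)) = chi_C (s(xC)⁻¹ d s(d⁻¹xC))` with the representatives `s` -/
noncomputable def cc [Fact p.Prime] (d : D) (a : AS p D) : ZMod p :=
  Multiplicative.toAdd (chi a.1 ⟨_, cc_mem d a⟩)

end DSet

end Pool.Agent.Helper98.EQ
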