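import Pool.Agent.Helper98.EQ.Nuf
import Pool.Agent.Helper4.EQ.PAR
import Pool.Agent.Helper9.EQ.TRZ
import Pool.Agent.Helper13.EQ.TEN
import Pool.Agent.Helper14.EQ.PHI
import Pool.Agent.Helper15.EQ.SET
import Pool.Agent.Helper23.EQ.FIN
import Pool.Agent.Helper26.EQ.TH
import Pool.Agent.Helper37.EQ.SCH
import Pool.Agent.Helper39.EQ.TRU
import Pool.Agent.Helper41.EQ.TRE
import Pool.Agent.Helper42.EQ.IDR
import Pool.Agent.Helper43.EQ.BLK
import Pool.Agent.Helper44.EQ.LFT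
import Pool.Agent.Helper45.EQ.CYC
import Pool.Agent.Helper26.EQ.NIL
import Pool.Agent.Helper47.EQ.BLOCKS
import Pool.Agent.Helper48.EQ.ORB
import Pool.Agent.Helper51.EQ.EXI
import Pool.Agent.Helper52.EQ.ONE
import Pool.Agent.Helper57.EQ.SRC
import Pool.Agent.Helper60.EQ.CEN
import Pool.Agent.Helper66.EQ.PATH
import Pool.Agent.Helper91.EQ.IMP

/-!
# Project EQ: the theorem
-/

set_option autoImplicit false

namespace Pool.Agent.Helper98.EQ

theorem pTEN : S_TEN := Pool.Agent.Helper13.EQ.TEN.t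
theorem pORB : S_ORB := Pool.Agent.Helper48.EQ.ORB.t
theorem pPATH : S_PATH := Pool.Agent.Helper66.EQ.PATH.t pORB
theorem pTRZ : S_TRZ := Pool.Agent.Helper9.EQ.TRZ.t pORB pPATH Pool.Agent.Helper42.EQ.IDR.t
theorem pTRU : S_TRU := Pool.Agent.Helper39.EQ.TRU.t Pool.Agent.Helper41.EQ.TRE.t
theorem pSCH : S_SCH := Pool.Agent.Helper37.EQ.SCH.t
theorem pONE : S_ONE := Pool.Agent.Helper52.EQ.ONE.t
theorem pPHI : S_PHI := Pool.Agent.Helper14.EQ.PHI.t pTEN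
theorem pIMP : S_IMP := Pool.Agent.Helper91.EQ.IMP.t pTEN
theorem pCYC : S_CYC := Pool.Agent.Helper45.EQ.CYC.t pTEN
theorem pSET : S_SET := Pool.Agent.Helper15.EQ.SET.t
theorem pPAR : S_PAR := Pool.Agent.Helper4.EQ.PAR.t pSET
theorem pFIN : S_FIN := Pool.Agent.Helper23.EQ.FIN.t
theorem pLFT : S_LFT := Pool.Agent.Helper44.EQ.LFT.t
theorem pTH : S_TH := Pool.Agent.Helper26.EQ.TH.t
theorem pNIL : S_NIL := Pool.Agent.Helper26.EQ.NIL.t
theorem pBLK : S_BLK := Pool.Agent.Helper43.EQ.BLK.t pTH pNIL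
theorem pCEN : S_CEN := Pool.Agent.Helper60.EQ.CEN.t pBLK
theorem pEXI : S_EXI := Pool.Agent.Helper51.EQ.EXI.t
theorem pSRC : S_SRC := Pool.Agent.Helper57.EQ.SRC.t pTH pNIL
theorem pNUF : S_NUF := nuf pSCH pONE pPHI pIMP pCYC pPAR pTRZ pTRU pFIN pLFT
theorem pBLOCKS : S_BLOCKS :=
  Pool.Agent.Helper47.EQ.BLOCKS.t pTH pNIL pBLK pCEN pEXI pSRC pLFT

/-- the theorem -/
theorem th_main : S_MAIN := mainT pSCH pONE pPHI pIMP pSET pNUF pBLOCKS

end Pool.Agent.Helper98.EQ
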