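import Pool.Agent.Helper98.EQ.Goals

/-!
# Project EQ: the inequality (assembly)
-/

set_option autoImplicit false
set_option linter.unusedSectionVars false

namespace Pool.Agent.Helper98.EQ

open MonoidAlgebra IsLocalRing Pool.Agent.Helper17.PF
open Pool.Agent.Helper47.EP (Dat Chr Hs Om ee ev kap dm pHB pSIM pRHO pCHR card_Hs dm_map)

variable {p : ℕ} {T : Dat p} {A : Type} [Fintype A] [DecidableEq A] {D : Type} [Group D]

theorem coeff_mul_sum {R L : Type} [CommRing R] [Group L] [Fintype L] (x y : MonoidAlgebra R L)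
    (h : L) : (x * y).coeff h = ∑ g, x.coeff g * y.coeff (g⁻¹ * h) := by
  classical
  induction x using MonoidAlgebra.induction_linear with
  | zero => simp
  | add f g hf hg =>
    rw [add_mul, coeff_add, Finsupp.add_apply, hf, hg, ← Finset.sum_add_distrib]
    refine Finset.sum_congr rfl fun a _ => ?_
    rw [coeff_add, Finsupp.add_apply, add_mul]
  | single g r =>
    rw [coeff_single_mul_apply, Finset.sum_eq_single g]
    · simp
    · intro b _ hb
      have : (single g r : MonoidAlgebra R L).coeff b = 0 := by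
        simp [hb.symm]
      rw [this, zero_mul]
    · intro hg
      exact absurd (Finset.mem_univ g) hg

/-- the action on the group algebra -/
noncomputable def sR (M : SA T A D) (R : Type) [CommRing R] (d : D) :
    MonoidAlgebra R (Hs T A) ≃+* MonoidAlgebra R (Hs T A) :=
  mapDomainRingEquiv R (M.s d : Hs T A ≃* Hs T A)

theorem sR_single (M : SA T A D) {R : Type} [CommRing R] (d : D) (g : Hs T A) (c : R) :
    sR M R d (single g c) = single (M.s d g) c := mapDomainRingEquiv_single _ _ _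

theorem sR_coeff (M : SA T A D) {R : Type} [CommRing R] (d : D) (x : MonoidAlgebra R (Hs T A))
    (g : Hs T A) : (sR M R d x).coeff (M.s d g) = x.coeff g := by
  unfold sR
  rw [coeff_mapDomainRingEquiv, Finsupp.equivMapDomain_apply]
  congr 1
  exact (M.s d).symm_apply_apply g

theorem r_comm {M : SA T A D} {R : Type} [CommRing R] {C : Chr T R} (I : Imp M C) (d : D)
    (z : MonoidAlgebra R (Hs T A)) : I.r d * z = sR M R d z * I.r d := by
  induction z using MonoidAlgebra.induction_linear with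
  | zero => rw [map_zero, mul_zero, zero_mul]
  | add x x' h h' => rw [mul_add, h, h', map_add, add_mul]
  | single g c =>
    have h1 : ∀ g : Hs T A, single g c = c • single g (1 : R) := by
      intro g
      rw [smul_single, smul_eq_mul, mul_one]
    rw [sR_single, h1, mul_smul_comm, ← I.conj, h1, smul_mul_assoc]

/-- the invariant elements commute with the `r d` -/
theorem iv_comm {M : SA T A D} {R : Type} [CommRing R] {C : Chr T R} (I : Imp M C)
    {i : MonoidAlgebra R (Hs T A)} (hi : Iv M i) (d : D) : I.r d * i = i * I.r d := by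
  rw [r_comm]
  congr 1
  ext g
  obtain ⟨g, rfl⟩ := (M.s d).surjective g
  rw [sR_coeff, hi]

/-- the inequality over a local ring of characteristic `0` -/
theorem num (hsch : S_SCH) (hone : S_ONE) (hphi : S_PHI) (himp : S_IMP) (hcyc : S_CYC)
    (hpar : S_PAR) (htrz : S_TRZ) (htru : S_TRU) (hfin : S_FIN) [Fact p.Prime] (hp2 : p ≠ 2)
    (T : Dat p) (D : Type) [Group D] [Finite D] (hD : IsPGroup p D)
    (hc : Coc (A := AS p D) (D := D) cc) (R : Type) [CommRing R] [IsDomain R] [IsLocalRing R]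
    [IsAdicComplete (maximalIdeal R) R] (hch : CharZero R)
    (hmax : maximalIdeal R = Ideal.span {(p : R)}) (C : Chr T R)
    (i : MonoidAlgebra R (Hs T (AS p D))) (hi1 : i * i = i) (hi2 : ee C (AS p D) * i = i)
    (hi3 : Iv (mono T cc hc) i) (hi4 : residue R (i.coeff 1) ≠ 0) (n : ℕ)
    (hn : (T.l : R) ^ (Fintype.card (AS p D) + 1) * i.coeff 1 = (n : R)) : Nat.card D ≤ n + 1 := by
  classical
  obtain ⟨S, hS1, hS2, hS3⟩ := hsch p T R C
  obtain ⟨τ, hτ0, hτ1, hτ2, hτ3⟩ := hone p T R C S hS1 hS2 hS3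
  obtain ⟨Φ, hΦ1, hΦ2, hΦ3, hΦ4, hΦ5⟩ := hphi p T (AS p D) R C S hS1 hS2 hS3
  obtain ⟨I, hI⟩ := himp p T (AS p D) D cc hc R C S τ hτ0 hτ1 hτ2 Φ hΦ1 hΦ2 hΦ3 hΦ4
  let P : D →* Matrix (AS p D → ZMod T.l) (AS p D → ZMod T.l) R :=
    { toFun := fun d => Φ (I.r d)
      map_one' := by rw [I.one, hΦ2]
      map_mul' := fun d d' => by rw [I.mul, map_mul] }
  have hP : ∀ d, P d = Φ (I.r d) := fun _ => rfl
  refine hfin R (AS p D → ZMod T.l) D hch P (Φ i) (by rw [← map_mul, hi1]) ?_ n ?_ ?_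
  · intro d
    rw [hP, ← map_mul, ← map_mul, iv_comm I hi3]
  · rw [hΦ5 i hi2, hn]
  · intro u hu
    obtain ⟨k, hk⟩ := hD u
    have hz : ((mono T cc hc).s u : Hs T (AS p D) ≃ Hs T (AS p D)) ^ p ^ k = 1 := by
      have h1 : ∀ m : ℕ, ((mono T cc hc).s u : Hs T (AS p D) ≃ Hs T (AS p D)) ^ m =
          ((mono T cc hc).s (u ^ m) : Hs T (AS p D) ≃ Hs T (AS p D)) := by
        intro m
        induction m with
        | zero =>
          rw [pow_zero, pow_zero, map_one]
          rfl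
        | succ m ih =>
          rw [pow_succ, ih, pow_succ, map_mul]
          rfl
      rw [h1, hk, map_one]
      rfl
    let π : Matrix (Hs T (AS p D)) (Hs T (AS p D)) R := fun g h => i.coeff (g * h⁻¹)
    have hπ1 : π * π = π := by
      funext g h
      rw [Matrix.mul_apply]
      show ∑ k, i.coeff (g * k⁻¹) * i.coeff (k * h⁻¹) = i.coeff (g * h⁻¹)
      conv_rhs => rw [← hi1]
      rw [coeff_mul_sum]
      refine Fintype.sum_equiv ((Equiv.inv _).trans (Equiv.mulLeft g)) _ _ fun k => ?_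
      show i.coeff (g * k⁻¹) * i.coeff (k * h⁻¹) =
        i.coeff (g * k⁻¹) * i.coeff ((g * k⁻¹)⁻¹ * (g * h⁻¹))
      rw [mul_inv_rev, inv_inv, mul_assoc, inv_mul_cancel_left]
    have hπ2 : ∀ x y, π (((mono T cc hc).s u : Hs T (AS p D) ≃ Hs T (AS p D)) x)
        (((mono T cc hc).s u : Hs T (AS p D) ≃ Hs T (AS p D)) y) = π x y := by
      intro x y
      show i.coeff ((mono T cc hc).s u x * ((mono T cc hc).s u y)⁻¹) = i.coeff (x * y⁻¹)
      rw [← map_inv, ← map_mul, hi3]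
    obtain ⟨b, hb1, hb2⟩ := htrz p R hch hmax (Hs T (AS p D))
      ((mono T cc hc).s u : Hs T (AS p D) ≃ Hs T (AS p D)) k hz π hπ1 hπ2
    have hb3 : 1 ≤ b := by
      refine hb2 ⟨1, map_one ((mono T cc hc).s u), ?_⟩
      show residue R (i.coeff (1 * 1⁻¹)) ≠ 0
      rw [inv_one, mul_one]
      exact hi4
    have h2 := htru p T (AS p D) D (mono T cc hc) R C I i hi2 u
    obtain ⟨c, hc'⟩ := hcyc p (AS p D) (ZMod T.l) R τ T.l hτ0 hτ1 hτ3
      (MulAction.toPerm u⁻¹) (cc u⁻¹)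
    have hodd := hpar p D hp2 hD u⁻¹ (inv_ne_one.2 hu)
    rw [← hI, hΦ5 _ (I.er _), hodd.neg_one_pow] at hc'
    refine ⟨T.l ^ c, b, hb3, ?_⟩
    rw [hP, ← map_mul, hΦ5 _ (by rw [← mul_assoc, I.er]), ← hb1]
    show _ = -∑ x, i.coeff (x * ((mono T cc hc).s u x)⁻¹)
    rw [h2]
    have h3 : (T.l : R) ^ (2 * Fintype.card (AS p D) + 2) =
        (T.l : R) ^ (Fintype.card (AS p D) + 1) * (T.l : R) ^ (Fintype.card (AS p D) + 1) := by
      rw [← pow_add]
      congr 1
      ring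
    rw [h3]
    push_cast
    linear_combination ((T.l : R) ^ (Fintype.card (AS p D) + 1) * (I.r u * i).coeff 1) * hc'

/-- the inequality over an algebraically closed field -/
theorem nuf (hsch : S_SCH) (hone : S_ONE) (hphi : S_PHI) (himp : S_IMP) (hcyc : S_CYC)
    (hpar : S_PAR) (htrz : S_TRZ) (htru : S_TRU) (hfin : S_FIN) (hlft : S_LFT) : S_NUF := by
  intro p _ hp2 T D _ _ hD hc F _ _ _ C i hi1 hi2 hi3 hi4
  obtain ⟨R, _, _, _, _, hch, hmax, ⟨φ⟩⟩ := Pool.Agent.Helper14.EP.WV.t p F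
  set C₀ : Chr T (ResidueField R) := C.map (φ.symm : F →+* ResidueField R) with hC₀
  set i₀ := MonoidAlgebra.mapRingHom (Hs T (AS p D)) (φ.symm : F →+* ResidueField R) i with hi₀
  obtain ⟨C', hC'⟩ := (pCHR p T).2 R C₀
  have h0 : ee (C'.map (residue R)) (AS p D) * i₀ = i₀ := by
    rw [hC']
    obtain ⟨-, -, -, -, -, -, hb7⟩ := pHB p T (AS p D) F C
    rw [hC₀, ← (hb7 _ (φ.symm : F →+* ResidueField R)).1, hi₀, ← map_mul, hi2]
  obtain ⟨i', hi'1, hi'2, hi'3, hred⟩ := hlft p T (AS p D) D (mono T cc hc) R C' i₀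
    (by rw [hi₀, ← map_mul, hi1]) h0 (by
      intro d g
      rw [hi₀, coeff_mapRingHom, coeff_mapRingHom, hi3 d g])
  have h1 : residue R (i'.coeff 1) ≠ 0 := by
    rw [← coeff_red, hred, hi₀, coeff_mapRingHom]
    intro h
    apply hi4
    have := congrArg φ h
    rw [map_zero] at this
    rw [← this]
    exact (φ.apply_symm_apply _).symm
  have htro := Pool.Agent.Helper1.EP.TRO.t R (Hs T (AS p D)) i' hi'1
  rw [card_Hs, hred, hi₀, dm_map] at htro
  obtain ⟨ρ, -, -, -, hρ⟩ := Pool.Agent.Helper30.EP.REP.t pHB pSIM p T (AS p D) F C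
  have hdm := hρ i hi2
  set n := Module.finrank F (LinearMap.range (ρ i)) with hn
  have hl : (T.l : R) ≠ 0 := by
    rw [Nat.cast_ne_zero]
    exact T.prime.ne_zero
  have h2 : (T.l : R) ^ (Fintype.card (AS p D) + 1) * i'.coeff 1 = (n : R) := by
    rw [hdm] at htro
    push_cast at htro
    have h3 : (T.l : R) ^ Fintype.card (AS p D) ≠ 0 := pow_ne_zero _ hl
    apply mul_left_cancel₀ h3
    rw [← htro]
    ring
  have h3 := num hsch hone hphi himp hcyc hpar htrz htru hfin hp2 T D hD hc R hch hmax C' i' hi'1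
    hi'2 hi'3 h1 n h2
  rw [hdm]
  calc Nat.card D * T.l ^ Fintype.card (AS p D)
      ≤ (n + 1) * T.l ^ Fintype.card (AS p D) := Nat.mul_le_mul_right _ h3
    _ = _ := by ring

/-- the theorem from the goals -/
theorem mainT (hsch : S_SCH) (hone : S_ONE) (hphi : S_PHI) (himp : S_IMP) (hset : S_SET)
    (hnuf : S_NUF) (hblocks : S_BLOCKS) : S_MAIN := by
  intro p _ hp2 𝒪 _ _ _ _ _ _ D _ _ hD
  have hp := (Fact.out : p.Prime)
  obtain ⟨T⟩ := Pool.Agent.Helper2.EP.FLD.t p hp hp2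
  obtain ⟨Cb⟩ := (pCHR p T).1 (ResidueField 𝒪)
  obtain ⟨C, hC⟩ := (pCHR p T).2 𝒪 Cb
  obtain ⟨hc, hset2⟩ := hset p D
  obtain ⟨S, hS1, hS2, hS3⟩ := hsch p T 𝒪 C
  obtain ⟨τ, hτ0, hτ1, hτ2, hτ3⟩ := hone p T 𝒪 C S hS1 hS2 hS3
  obtain ⟨Φ, hΦ1, hΦ2, hΦ3, hΦ4, hΦ5⟩ := hphi p T (AS p D) 𝒪 C S hS1 hS2 hS3
  obtain ⟨I, -⟩ := himp p T (AS p D) D cc hc 𝒪 C S τ hτ0 hτ1 hτ2 Φ hΦ1 hΦ2 hΦ3 hΦ4
  obtain ⟨i, n, hi1, hi2, hi3, hi4, hi5, hi6⟩ := hblocks p T (AS p D) D hD (mono T cc hc) (by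
    intro v hv
    funext a
    obtain ⟨d, hd1, hd2⟩ := hset2 a
    have h1 := congrFun (hv d) a
    have h2 : d⁻¹ • a = a := by
      rw [inv_smul_eq_iff, hd1]
    have h3 : T.t (cc d a) (v (d⁻¹ • a)) = v a := h1
    rw [h2] at h3
    exact T.inj _ hd2 _ h3) 𝒪 C I
  refine ⟨n, hi6, ?_⟩
  have h1 := hnuf p hp2 T D hD hc (ResidueField 𝒪) (C.map (residue 𝒪)) i hi1 hi2 hi3 hi4
  have h2 : Nat.card D * T.l ^ Fintype.card (AS p D) ≤
      (n + 1) * T.l ^ Fintype.card (AS p D) := by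
    calc _ ≤ dm i + T.l ^ Fintype.card (AS p D) := h1
      _ ≤ T.l ^ Fintype.card (AS p D) * n + T.l ^ Fintype.card (AS p D) :=
        Nat.add_le_add_right hi5 _
      _ = _ := by ring
  exact Nat.le_of_mul_le_mul_right h2 (pow_pos T.prime.pos _)

end Pool.Agent.Helper98.EQ
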